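import Pool.Agent.H47.UG.Alg

/-!
# Block A, module A1: the relations of Euler, the coordinate rings of the charts, smoothness
-/

set_option autoImplicit false

open MvPolynomial

namespace Pool.Agent.H47.UG.FF

variable {K : Type} [Field K] {n d : ℕ} {F : HP K n} (T : FF d F)

/-- Scaling of the coordinates. -/
theorem aeval_div (i : Fin (n + 2)) {s : ℕ} {P : HP K n} (hP : P.IsHomogeneous s) :
    aeval (fun l => T.x l / T.x i) P = aeval T.x P / T.x i ^ s := by
  rw [aeval_def, aeval_def, eval₂_eq', eval₂_eq', Finset.sum_div]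
  refine Finset.sum_congr rfl fun a ha => ?_
  have hs : ∑ l, a l = s := by
    have h1 := hP (mem_support_iff.1 ha)
    rw [← h1]
    rw [Finsupp.weight_apply, Finsupp.sum_fintype _ _ (by simp)]
    simp
  rw [mul_div_assoc]
  congr 1
  simp only [div_pow]
  rw [Finset.prod_div_distrib, Finset.prod_pow_eq_pow_sum, hs]

theorem aeval_F (hF : F.IsHomogeneous d) : aeval T.x F = 0 :=
  (T.ker d F hF).2 dvd_rfl

/-- A derivation of the value of a polynomial. -/
theorem der_aeval (δ : Derivation K T.L T.L) (P : HP K n) :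
    δ (aeval T.x P) = ∑ j, aeval T.x (pderiv j P) * δ (T.x j) := by
  induction P using MvPolynomial.induction_on with
  | C a => simp
  | add p q hp hq => simp only [map_add, hp, hq, add_mul, Finset.sum_add_distrib]
  | mul_X p i hp =>
    classical
    rw [map_mul, aeval_X, Derivation.leibniz, hp]
    simp only [pderiv_mul, map_add, map_mul, aeval_X, smul_eq_mul, add_mul, Finset.sum_add_distrib]
    rw [add_comm]
    congr 1
    · rw [Finset.mul_sum]
      exact Finset.sum_congr rfl fun j _ => by ring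
    · rw [Finset.sum_eq_single i]
      · rw [pderiv_X_self, map_one, mul_one]
      · intro j _ hj
        rw [pderiv_X_of_ne hj.symm, map_zero, mul_zero, zero_mul]
      · exact fun h => absurd (Finset.mem_univ i) h

theorem mem_A' (i : Fin (n + 2)) (v : T.L) : v ∈ T.A i ↔ ∃ (s : ℕ) (P : HP K n), P.IsHomogeneous s ∧
    v = aeval T.x P / T.x i ^ s := by
  unfold A
  rw [Algebra.adjoin_range_eq_range_aeval]
  constructor
  · rintro ⟨Q, rfl⟩
    refine ⟨Q.totalDegree, ∑ j ∈ Finset.range (Q.totalDegree + 1),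
      homogeneousComponent j Q * X i ^ (Q.totalDegree - j), ?_, ?_⟩
    · refine IsHomogeneous.sum _ _ _ fun j hj => ?_
      have h := (homogeneousComponent_isHomogeneous j Q).mul (isHomogeneous_X_pow (R := K) i (Q.totalDegree - j))
      rwa [Nat.add_sub_cancel' (Nat.lt_succ_iff.1 (Finset.mem_range.1 hj))] at h
    · have hx : T.x i ≠ 0 := T.x_ne i
      change aeval (fun l => T.x l / T.x i) Q = _
      conv_lhs => rw [← sum_homogeneousComponent Q]
      rw [map_sum, map_sum, Finset.sum_div]
      refine Finset.sum_congr rfl fun j hj => ?_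
      have hj' := Nat.lt_succ_iff.1 (Finset.mem_range.1 hj)
      rw [T.aeval_div i (homogeneousComponent_isHomogeneous j Q), map_mul, map_pow, aeval_X,
        div_eq_div_iff (pow_ne_zero _ hx) (pow_ne_zero _ hx), mul_assoc, ← pow_add, Nat.sub_add_cancel hj']
  · rintro ⟨s, P, hP, rfl⟩
    exact ⟨P, T.aeval_div i hP⟩

section

set_option linter.unusedSectionVars false

variable [CharZero K] (hF : Nice d F)

include hF

theorem euler : ∑ j, T.x j * T.fd j = 0 := by
  have h := congrArg (aeval T.x) hF.hom.sum_X_mul_pderiv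
  rw [map_sum, map_nsmul, T.aeval_F hF.hom, smul_zero] at h
  rw [← h]
  exact Finset.sum_congr rfl fun j _ => by rw [map_mul, aeval_X, fd]

theorem chain (l : Fin n) : ∑ j, T.fd j * T.par l (T.x j) = 0 := by
  have h := T.der_aeval (T.par l) F
  rw [T.aeval_F hF.hom, map_zero] at h
  exact h.symm

theorem fd_ne (hd : 2 ≤ d) (j : Fin (n + 2)) : T.fd j ≠ 0 := by
  intro h0
  have hP : (pderiv j F).IsHomogeneous (d - 1) := hF.hom.pderiv
  obtain ⟨Q, hQ⟩ := (T.ker _ _ hP).1 h0
  have hF0 : F ≠ 0 := hF.irr.ne_zero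
  have hne : pderiv j F ≠ 0 := by
    intro h1
    have h2 := congrArg (coeff (Finsupp.single j (d - 1))) h1
    rw [coeff_pderiv, coeff_zero, ← Finsupp.single_add, Nat.sub_add_cancel (by omega : 1 ≤ d)] at h2
    rcases mul_eq_zero.1 h2 with h3 | h3
    · exact hF.diag j h3
    · rw [Finsupp.single_eq_same] at h3
      have h4 : (((d - 1) + 1 : ℕ) : K) ≠ 0 := Nat.cast_ne_zero.2 (Nat.succ_ne_zero (d - 1))
      exact h4 (by rw [Nat.cast_add, Nat.cast_one]; exact h3)
  have hQ0 : Q ≠ 0 := by
    rintro rfl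
    exact hne (by rw [hQ, mul_zero])
  have h5 := totalDegree_mul_of_isDomain hF0 hQ0
  rw [← hQ, hP.totalDegree hne, hF.hom.totalDegree hF0] at h5
  omega

theorem mem_A (i : Fin (n + 2)) (v : T.L) : v ∈ T.A i ↔ ∃ (s : ℕ) (P : HP K n), P.IsHomogeneous s ∧
    v = aeval T.x P / T.x i ^ s := T.mem_A' i v

theorem u_mem (i j : Fin (n + 2)) : T.u i j ∈ T.A i :=
  (T.mem_A' i _).2 ⟨d - 1, pderiv j F, hF.hom.pderiv, rfl⟩

theorem euler_u (i : Fin (n + 2)) : ∑ j, T.x j / T.x i * T.u i j = 0 := by
  have h := T.euler hF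
  have hx := T.x_ne i
  have h1 : ∑ j, T.x j / T.x i * T.u i j = (∑ j, T.x j * T.fd j) / (T.x i * T.x i ^ (d - 1)) := by
    rw [Finset.sum_div]
    refine Finset.sum_congr rfl fun j _ => ?_
    rw [u, div_mul_div_comm]
  rw [h1, h, zero_div]

theorem smoothA (hd : 2 ≤ d) (i : Fin (n + 2)) : ∃ c : Fin (n + 2) → T.L, (∀ j, c j ∈ T.A i) ∧ c i = 0 ∧
    ∑ j, c j * T.u i j = 1 := by
  obtain ⟨N, hN⟩ := hF.smooth
  have hx := T.x_ne i
  have h1 : (X i : HP K n) ^ (N + d) ∈ Ideal.span (Set.range fun j => pderiv j F) := by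
    rw [pow_add]
    exact Ideal.mul_mem_right _ _ (hN i)
  obtain ⟨a, ha⟩ := Ideal.mem_span_range_iff_exists_fun.1 h1
  set M := N + 1 with hM
  have h2 : ∑ j, homogeneousComponent M (a j) * pderiv j F = X i ^ (N + d) := by
    have h3 := congrArg (homogeneousComponent (N + d)) ha
    rw [map_sum, homogeneousComponent_eq_self (isHomogeneous_X_pow i (N + d))] at h3
    rw [← h3]
    refine Finset.sum_congr rfl fun j _ => ?_
    have hP : (pderiv j F).IsHomogeneous (d - 1) := hF.hom.pderiv
    conv_rhs => rw [← sum_homogeneousComponent (a j), Finset.sum_mul, map_sum]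
    have h4 : ∀ r ∈ Finset.range ((a j).totalDegree + 1),
        homogeneousComponent (N + d) (homogeneousComponent r (a j) * pderiv j F) =
          if r = M then homogeneousComponent M (a j) * pderiv j F else 0 := by
      intro r _
      have h5 := (homogeneousComponent_isHomogeneous r (a j)).mul hP
      split_ifs with hr
      · rw [hr] at h5 ⊢
        exact homogeneousComponent_eq_self (by rwa [show N + d = M + (d - 1) by omega])
      · rw [homogeneousComponent_of_mem h5, if_neg (by omega)]
    rw [Finset.sum_congr rfl h4, Finset.sum_ite_eq']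
    split_ifs with h6
    · rfl
    · rw [homogeneousComponent_eq_zero _ _ (by
        rw [Finset.mem_range] at h6
        omega), zero_mul]
  set c' : Fin (n + 2) → T.L := fun j => aeval T.x (homogeneousComponent M (a j)) / T.x i ^ M with hc'
  have hc'A : ∀ j, c' j ∈ T.A i := fun j =>
    (T.mem_A' i _).2 ⟨M, _, homogeneousComponent_isHomogeneous M (a j), rfl⟩
  have hsum : ∑ j, c' j * T.u i j = 1 := by
    have h3 := congrArg (aeval T.x) h2
    rw [map_sum, map_pow, aeval_X] at h3
    have h4 : ∑ j, c' j * T.u i j =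
        (∑ j, aeval T.x (homogeneousComponent M (a j) * pderiv j F)) / (T.x i ^ M * T.x i ^ (d - 1)) := by
      rw [Finset.sum_div]
      refine Finset.sum_congr rfl fun j _ => ?_
      rw [hc', u, fd, div_mul_div_comm, map_mul]
    rw [h4, h3, ← pow_add, show M + (d - 1) = N + d by omega, div_self (pow_ne_zero _ hx)]
  refine ⟨fun j => c' j - c' i * (T.x j / T.x i), fun j => ?_, ?_, ?_⟩
  · refine (T.A i).sub_mem (hc'A j) ((T.A i).mul_mem (hc'A i) ?_)
    exact Algebra.subset_adjoin ⟨j, rfl⟩
  · change c' i - c' i * (T.x i / T.x i) = 0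
    rw [div_self hx, mul_one, sub_self]
  · simp only [sub_mul]
    rw [Finset.sum_sub_distrib, hsum]
    have h7 : ∑ j, c' i * (T.x j / T.x i) * T.u i j = c' i * ∑ j, T.x j / T.x i * T.u i j := by
      rw [Finset.mul_sum]
      exact Finset.sum_congr rfl fun j _ => by ring
    rw [h7, T.euler_u hF, mul_zero, sub_zero]

/-- relation of the symbols -/
theorem rel (i : Fin (n + 2)) (s : ℕ) : ∑ l, C (T.u i l) * T.δ s (T.x l / T.x i) = 0 := by
  have hx := T.x_ne i
  have h1 : ∀ m : Fin n, ∑ l, T.u i l * T.par m (T.x l / T.x i) = 0 := by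
    intro m
    have h2 : ∑ l, T.u i l * T.par m (T.x l / T.x i) =
        (T.x i * (∑ l, T.fd l * T.par m (T.x l)) - T.par m (T.x i) * ∑ l, T.x l * T.fd l) /
          (T.x i ^ (d - 1) * T.x i ^ 2) := by
      rw [Finset.mul_sum, Finset.mul_sum, ← Finset.sum_sub_distrib, Finset.sum_div]
      refine Finset.sum_congr rfl fun l _ => ?_
      rw [u, Derivation.leibniz_div]
      simp only [smul_eq_mul]
      have hx' : T.x i ^ (d - 1) ≠ 0 := pow_ne_zero _ hx
      field_simp
    rw [h2, T.chain hF, T.euler hF, mul_zero, mul_zero, sub_zero, zero_div]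
  have h3 : ∑ l, C (T.u i l) * T.δ s (T.x l / T.x i) =
      ∑ m, C (∑ l, T.u i l * T.par m (T.x l / T.x i)) * X (s, m) := by
    simp only [δ, Finset.mul_sum, map_sum, map_mul, Finset.sum_mul]
    rw [Finset.sum_comm]
    exact Finset.sum_congr rfl fun m _ => Finset.sum_congr rfl fun l _ => by ring
  rw [h3]
  exact Finset.sum_eq_zero fun m _ => by rw [h1 m, C_0, zero_mul]

end

end Pool.Agent.H47.UG.FF
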