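import Pool.Agent.H57.UGB.Defs
import Pool.Agent.H88.UG.Interp

/-!
# Vertical slanted vector fields

Two families of derivations of the ring of functions on the universal space of jets which do not move the jet,
are tangent to the space of jets of the universal hypersurface and have poles of order at most `5k`.
-/

set_option autoImplicit false

open MvPolynomial

namespace Pool.Agent.H33.UG.Fld

open Pool.Agent.H57.UGB Pool.Agent.H88.UG

section wts

variable {n k : ℕ}

theorem dgz (c : ℕ) : Dg c (0 : JR n k) := fun m hm => absurd (coeff_zero m) hm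

theorem dgadd {c : ℕ} {P Q : JR n k} (h : Dg c P) (h' : Dg c Q) : Dg c (P + Q) := by
  intro m hm
  rw [coeff_add] at hm
  by_cases h0 : coeff m P = 0
  · refine h' m fun h1 => hm ?_
    rw [h0, h1, add_zero]
  · exact h m h0

theorem dgneg {c : ℕ} {P : JR n k} (h : Dg c P) : Dg c (-P) := by
  intro m hm
  rw [coeff_neg] at hm
  exact h m fun h0 => hm (by rw [h0, neg_zero])

theorem dgmul {c c' : ℕ} {P Q : JR n k} (h : Dg c P) (h' : Dg c' Q) : Dg (c + c') (P * Q) := by
  classical
  intro m hm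
  have h1 := support_mul P Q (mem_support_iff.2 hm)
  obtain ⟨a, ha, b, hb, hab⟩ := Finset.mem_add.1 h1
  rw [← hab, map_add]
  exact Nat.add_le_add (h a (mem_support_iff.1 ha)) (h' b (mem_support_iff.1 hb))

theorem dgC (c : ℕ) (z : ℂ) : Dg c (C z : JR n k) := by
  classical
  intro m hm
  rw [coeff_C] at hm
  split_ifs at hm with h
  · subst h
    simp
  · exact absurd rfl hm

theorem dgX (v : Vr n k) : Dg (wv n k v) (X v : JR n k) := by
  classical
  intro m hm
  rw [coeff_X] at hm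
  split_ifs at hm with h
  · subst h
    rw [Finsupp.weight_single, one_smul]
  · exact absurd rfl hm

theorem dgmono {c c' : ℕ} {P : JR n k} (h : Dg c P) (hc : c ≤ c') : Dg c' P := fun m hm => (h m hm).trans hc

theorem dgpow {c : ℕ} {P : JR n k} (h : Dg c P) (r : ℕ) : Dg (r * c) (P ^ r) := by
  induction r with
  | zero => simpa using dgC (n := n) (k := k) 0 1
  | succ r ih =>
    rw [pow_succ, Nat.succ_mul]
    exact dgmul ih h

/-- The filtration by the weight. -/
noncomputable def wf (n k : ℕ) : Filt (JR n k) where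
  F c :=
    { carrier := {P | Dg c P}
      add_mem' := fun h h' => dgadd h h'
      zero_mem' := dgz c
      neg_mem' := fun h => dgneg h }
  one := by
    have := dgC (n := n) (k := k) 0 1
    rwa [map_one] at this
  mul := fun h h' => dgmul h h'
  mono := fun h h' => dgmono h' h

theorem mem_wf {c : ℕ} {P : JR n k} : P ∈ (wf n k).F c ↔ Dg c P := Iff.rfl

theorem dg_uy (j : Fin (n + 2)) (s : ℕ) : Dg (s + 1) (PowerSeries.coeff s (uy n k j)) := by
  rw [uy, PowerSeries.coeff_mk]
  split_ifs with h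
  · exact dgX _
  · exact dgz _

/-- The filtration by the kernel of a derivation. -/
noncomputable def kf (V : Derivation ℂ (JR n k) (JR n k)) : Filt (JR n k) where
  F _ :=
    { carrier := {P | V P = 0}
      add_mem' := fun {a b} h h' => by
        have h1 : V a = 0 := h
        have h2 : V b = 0 := h'
        change V (a + b) = 0
        rw [map_add, h1, h2, add_zero]
      zero_mem' := map_zero V
      neg_mem' := fun {a} h => by
        have h1 : V a = 0 := h
        change V (-a) = 0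
        rw [map_neg, h1, neg_zero] }
  one := V.map_one_eq_zero
  mul := fun {i j a b} h h' => by
    have h1 : V a = 0 := h
    have h2 : V b = 0 := h'
    change V (a * b) = 0
    rw [Derivation.leibniz, h1, h2, smul_zero, smul_zero, add_zero]
  mono := fun _ h' => h'

end wts

/-! ### Congruences of power series -/

section cong

variable {R S : Type} [CommRing R] [CommRing S]

/-- Reduction modulo `t^(k+1)`. -/
noncomputable def red (R : Type) [CommRing R] (k : ℕ) :
    PowerSeries R →+* PowerSeries R ⧸ Ideal.span {(PowerSeries.X : PowerSeries R) ^ (k + 1)} :=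
  Ideal.Quotient.mk _

theorem red_eq {k : ℕ} {f g : PowerSeries R} :
    red R k f = red R k g ↔ ∀ s ≤ k, PowerSeries.coeff s f = PowerSeries.coeff s g := by
  rw [red, Ideal.Quotient.eq, Ideal.mem_span_singleton, PowerSeries.X_pow_dvd_iff]
  constructor
  · intro h s hs
    have := h s (Nat.lt_succ_of_le hs)
    rwa [map_sub, sub_eq_zero] at this
  · intro h s hs
    rw [map_sub, sub_eq_zero]
    exact h s (Nat.lt_succ_iff.1 hs)

theorem red_eq_zero {k : ℕ} {f : PowerSeries R} :
    red R k f = 0 ↔ ∀ s ≤ k, PowerSeries.coeff s f = 0 := by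
  rw [← map_zero (red R k), red_eq]
  simp

end cong

section pts

variable {n k : ℕ} {R : Type} [CommRing R] [Algebra ℂ R]

theorem map_uy (a : (Fin (n + 2) →₀ ℕ) → R) (y : Fin (n + 2) → PowerSeries R) (j : Fin (n + 2)) {s : ℕ}
    (hs : s ≤ k) : pt a y (PowerSeries.coeff s (uy n k j)) = PowerSeries.coeff s (y j) := by
  rw [uy, PowerSeries.coeff_mk, dif_pos (Nat.lt_succ_of_le hs), pt, aeval_X]
  rfl

theorem red_map_uy (a : (Fin (n + 2) →₀ ℕ) → R) (y : Fin (n + 2) → PowerSeries R) (j : Fin (n + 2)) :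
    red R k (PowerSeries.map ((pt a y : JR n k →ₐ[ℂ] R) : JR n k →+* R) (uy n k j)) = red R k (y j) := by
  rw [red_eq]
  intro s hs
  rw [PowerSeries.coeff_map]
  exact map_uy a y j hs

/-- Products of the coordinates. -/
noncomputable def mo {A : Type} [CommRing A] (y : Fin (n + 2) → A) (α : Fin (n + 2) →₀ ℕ) : A := ∏ j, y j ^ α j

theorem mo_add {A : Type} [CommRing A] (y : Fin (n + 2) → A) (α β : Fin (n + 2) →₀ ℕ) :
    mo y (α + β) = mo y α * mo y β := by
  rw [mo, mo, mo, ← Finset.prod_mul_distrib]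
  exact Finset.prod_congr rfl fun j _ => by rw [Finsupp.add_apply, pow_add]

theorem mo_single {A : Type} [CommRing A] (y : Fin (n + 2) → A) (j : Fin (n + 2)) (r : ℕ) :
    mo y (Finsupp.single j r) = y j ^ r := by
  classical
  rw [mo, Finset.prod_eq_single j]
  · rw [Finsupp.single_eq_same]
  · intro i _ hi
    rw [Finsupp.single_eq_of_ne hi, pow_zero]
  · exact fun h => absurd (Finset.mem_univ _) h

theorem aeval_gen {S : Type} [CommRing S] (d : ℕ) (y : Fin (n + 2) → PowerSeries S)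
    (g : (Fin (n + 2) →₀ ℕ) → S) :
    aeval y (gen n d g) = ∑ α ∈ (Finset.univ : Finset (Fin (n + 2))).finsuppAntidiag d,
      PowerSeries.C (g α) * mo y α := by
  rw [gen, map_sum]
  refine Finset.sum_congr rfl fun α _ => ?_
  rw [aeval_monomial, PowerSeries.algebraMap_apply, Algebra.algebraMap_self, RingHom.id_apply, mo,
    Finsupp.prod_fintype _ _ fun i => pow_zero _]

theorem red_map_mo (a : (Fin (n + 2) →₀ ℕ) → R) (y : Fin (n + 2) → PowerSeries R) (α : Fin (n + 2) →₀ ℕ) :
    red R k (PowerSeries.map ((pt a y : JR n k →ₐ[ℂ] R) : JR n k →+* R) (mo (uy n k) α)) =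
      red R k (mo y α) := by
  rw [mo, mo, map_prod, map_prod, map_prod]
  refine Finset.prod_congr rfl fun j _ => ?_
  rw [map_pow, map_pow, map_pow, red_map_uy]

theorem pt_mo (a : (Fin (n + 2) →₀ ℕ) → R) (y : Fin (n + 2) → PowerSeries R) (α : Fin (n + 2) →₀ ℕ) {s : ℕ}
    (hs : s ≤ k) :
    pt a y (PowerSeries.coeff s (mo (uy n k) α)) = PowerSeries.coeff s (mo y α) := by
  rw [← red_eq.1 (red_map_mo (k := k) a y α) s hs, PowerSeries.coeff_map]
  rfl

theorem pt_gen (d : ℕ) (a : (Fin (n + 2) →₀ ℕ) → R) (y : Fin (n + 2) → PowerSeries R)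
    (g : (Fin (n + 2) →₀ ℕ) → JR n k) {s : ℕ} (hs : s ≤ k) :
    pt a y (PowerSeries.coeff s (aeval (uy n k) (gen n d g))) =
      PowerSeries.coeff s (aeval y (gen n d fun α => pt a y (g α))) := by
  rw [aeval_gen, aeval_gen, map_sum, map_sum, map_sum]
  refine Finset.sum_congr rfl fun α _ => ?_
  rw [PowerSeries.coeff_C_mul, PowerSeries.coeff_C_mul, map_mul, pt_mo a y α hs]

end pts

/-! ### Vertical fields -/

section ver

variable {n k : ℕ}

/-- The derivation with `a_α ↦ g α` not moving the jet. -/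
noncomputable def vf (g : (Fin (n + 2) →₀ ℕ) → JR n k) : Derivation ℂ (JR n k) (JR n k) :=
  mkDerivation ℂ (Sum.elim g fun _ => 0)

theorem vf_inl (g : (Fin (n + 2) →₀ ℕ) → JR n k) (α : Fin (n + 2) →₀ ℕ) : vf g (X (Sum.inl α)) = g α := by
  rw [vf, mkDerivation_X]
  rfl

theorem vf_inr (g : (Fin (n + 2) →₀ ℕ) → JR n k) (v : Fin (n + 2) × Fin (k + 1)) :
    vf g (X (Sum.inr v)) = 0 := by
  rw [vf, mkDerivation_X]
  rfl

theorem vf_uy (g : (Fin (n + 2) →₀ ℕ) → JR n k) (j : Fin (n + 2)) (s : ℕ) :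
    vf g (PowerSeries.coeff s (uy n k j)) = 0 := by
  rw [uy, PowerSeries.coeff_mk]
  split_ifs with h
  · exact vf_inr g _
  · exact map_zero _

theorem vf_mo (g : (Fin (n + 2) →₀ ℕ) → JR n k) (α : Fin (n + 2) →₀ ℕ) (s : ℕ) :
    vf g (PowerSeries.coeff s (mo (uy n k) α)) = 0 := by
  have h1 : ∀ j ∈ (Finset.univ : Finset (Fin (n + 2))), (kf (vf g)).PS 0 (α j * 0) (uy n k j ^ α j) :=
    fun j _ => (kf (vf g)).PS_pow (fun s => vf_uy g j s) (α j)
  exact (kf (vf g)).PS_prod h1 s

theorem vf_Fc (g : (Fin (n + 2) →₀ ℕ) → JR n k) (d s : ℕ) :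
    vf g (Fc n d k s) = PowerSeries.coeff s (aeval (uy n k) (gen n d g)) := by
  rw [Fc, aeval_gen, aeval_gen, map_sum, map_sum, map_sum]
  refine Finset.sum_congr rfl fun α _ => ?_
  rw [PowerSeries.coeff_C_mul, PowerSeries.coeff_C_mul, Derivation.leibniz, vf_mo, smul_zero, zero_add, ua,
    vf_inl, smul_eq_mul, mul_comm]

/-- A criterion for slanted fields. -/
theorem isFld_vf (d : ℕ) (g : (Fin (n + 2) →₀ ℕ) → JR n k) (h1 : ∀ α, Dg (5 * k) (g α))
    (h2 : ∀ s ≤ k, ∀ (R : Type) [CommRing R] [Algebra ℂ R] (a : (Fin (n + 2) →₀ ℕ) → R)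
      (y : Fin (n + 2) → PowerSeries R), y 0 = 1 →
        PowerSeries.coeff s (aeval y (gen n d fun α => pt a y (g α))) = 0) : IsFld n d k (vf g) where
  deg := by
    rintro (α | v)
    · rw [vf_inl]
      exact h1 α
    · rw [vf_inr]
      exact dgz _
  zero := fun j => vf_inr g _
  nrm := fun s => vf_inr g _
  kill := by
    intro s hs R _ _ a y hy
    rw [vf_Fc, pt_gen d a y g hs]
    exact h2 s hs R a y hy

/-- Finitely many values. -/
noncomputable def gs {A : Type} [AddCommMonoid A] (N : ℕ) (b : ℕ → (Fin (n + 2) →₀ ℕ)) (c : ℕ → A) :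
    (Fin (n + 2) →₀ ℕ) → A :=
  open Classical in fun β => ∑ i ∈ Finset.range N, if β = b i then c i else 0

theorem aeval_gs {R : Type} [CommRing R] (d N : ℕ) (b : ℕ → (Fin (n + 2) →₀ ℕ)) (c : ℕ → R)
    (hb : ∀ i < N, b i ∈ (Finset.univ : Finset (Fin (n + 2))).finsuppAntidiag d)
    (y : Fin (n + 2) → PowerSeries R) :
    aeval y (gen n d (gs N b c)) = ∑ i ∈ Finset.range N, PowerSeries.C (c i) * mo y (b i) := by
  classical
  rw [aeval_gen]
  simp only [gs, map_sum, Finset.sum_mul]
  rw [Finset.sum_comm]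
  refine Finset.sum_congr rfl fun i hi => ?_
  rw [Finset.sum_eq_single (b i)]
  · rw [if_pos rfl]
  · intro β _ hβ
    rw [if_neg hβ, map_zero, zero_mul]
  · intro h
    exact absurd (hb i (Finset.mem_range.1 hi)) h

theorem map_gs {A B : Type} [AddCommMonoid A] [AddCommMonoid B] (f : A →+ B) (N : ℕ)
    (b : ℕ → (Fin (n + 2) →₀ ℕ)) (c : ℕ → A) (β : Fin (n + 2) →₀ ℕ) :
    f (gs N b c β) = gs N b (fun i => f (c i)) β := by
  classical
  rw [gs, gs, map_sum]
  refine Finset.sum_congr rfl fun i _ => ?_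
  rw [apply_ite f, map_zero]

theorem gs_ne {A : Type} [AddCommMonoid A] (N : ℕ) (b : ℕ → (Fin (n + 2) →₀ ℕ)) (c : ℕ → A)
    (β : Fin (n + 2) →₀ ℕ) (h : gs N b c β ≠ 0) : ∃ i < N, β = b i := by
  classical
  by_contra h'
  push Not at h'
  refine h (Finset.sum_eq_zero fun i hi => ?_)
  rw [if_neg (h' i (Finset.mem_range.1 hi))]

theorem gs_last {A : Type} [AddCommMonoid A] (N : ℕ) (b : ℕ → (Fin (n + 2) →₀ ℕ)) (c : ℕ → A)
    (h : ∀ i < N, b N ≠ b i) : gs (N + 1) b c (b N) = c N := by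
  classical
  rw [gs, Finset.sum_range_succ, if_pos rfl, Finset.sum_eq_zero, zero_add]
  intro i hi
  rw [if_neg (h i (Finset.mem_range.1 hi))]

theorem gs_dg (N : ℕ) (b : ℕ → (Fin (n + 2) →₀ ℕ)) (c : ℕ → JR n k) (e : ℕ) (h : ∀ i < N, Dg e (c i))
    (β : Fin (n + 2) →₀ ℕ) : Dg e (gs N b c β) := by
  classical
  rw [gs]
  refine (wf n k).sum (i := e) fun i hi => ?_
  split_ifs
  · exact h i (Finset.mem_range.1 hi)
  · exact dgz _

theorem mem_ad {d : ℕ} {α : Fin (n + 2) →₀ ℕ} :
    α ∈ (Finset.univ : Finset (Fin (n + 2))).finsuppAntidiag d ↔ α.degree = d := by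
  rw [Finset.mem_finsuppAntidiag, Finsupp.degree_eq_sum]
  exact ⟨fun h => h.1, fun h => ⟨h, Finset.subset_univ _⟩⟩

end ver

end Pool.Agent.H33.UG.Fld

namespace Pool.Agent.H57.UGB

open Pool.Agent.H33.UG.Fld Pool.Agent.H88.UG

theorem fld3 (n d k : ℕ) (hk : 1 ≤ k) (hd : k + 1 ≤ d) (l : Fin (n + 2)) (hl : l ≠ 0)
    (α : Fin (n + 2) →₀ ℕ) (hα : α ∈ (Finset.univ : Finset (Fin (n + 2))).finsuppAntidiag d)
    (ho : α 0 + α l = d) (hr : k < α l) :
    ∃ V : Derivation ℂ (JR n k) (JR n k), IsFld n d k V ∧ (∀ v, V (X (Sum.inr v)) = 0) ∧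
      V (X (Sum.inl α)) = 1 ∧
      ∀ β, β ≠ α → V (X (Sum.inl β)) ≠ 0 → β 0 + β l = d ∧
        β ∈ (Finset.univ : Finset (Fin (n + 2))).finsuppAntidiag d ∧ β l < α l := by
  set q : ℕ := α l - (k + 1) with hq
  have hqa : q + (k + 1) = α l := by omega
  have hal : α l ≤ d := by omega
  set b : ℕ → (Fin (n + 2) →₀ ℕ) := fun r => Finsupp.single l (q + r) + Finsupp.single 0 (d - (q + r)) with hb
  have hbl : ∀ r, b r l = q + r := by
    intro r
    simp only [hb, Finsupp.add_apply, Finsupp.single_eq_same]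
    rw [Finsupp.single_eq_of_ne hl, add_zero]
  have hb0 : ∀ r, b r 0 = d - (q + r) := by
    intro r
    simp only [hb, Finsupp.add_apply, Finsupp.single_eq_same]
    rw [Finsupp.single_eq_of_ne hl.symm, zero_add]
  have hbd : ∀ r ≤ k + 1, b r ∈ (Finset.univ : Finset (Fin (n + 2))).finsuppAntidiag d := by
    intro r hr'
    rw [mem_ad, hb]
    simp only [map_add, Finsupp.degree_single]
    omega
  have hbα : b (k + 1) = α := by
    have h1 : ∀ j, j ≠ 0 → j ≠ l → α j = 0 := by
      intro j hj0 hjl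
      have h2 : α.degree = d := mem_ad.1 hα
      rw [Finsupp.degree_eq_sum] at h2
      have h3 : α 0 + α l + α j ≤ ∑ i, α i := by
        have h4 : ∑ i ∈ ({0, l, j} : Finset (Fin (n + 2))), α i ≤ ∑ i, α i :=
          Finset.sum_le_sum_of_subset (Finset.subset_univ _)
        rw [Finset.sum_insert (by simp [hl.symm, hj0.symm]), Finset.sum_insert (by simp [hjl.symm]),
          Finset.sum_singleton] at h4
        omega
      omega
    ext j
    by_cases hjl : j = l
    · rw [hjl, hbl, hqa]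
    · by_cases hj0 : j = 0
      · rw [hj0, hb0, hqa]
        omega
      · rw [h1 j hj0 hjl]
        simp only [hb, Finsupp.add_apply]
        rw [Finsupp.single_eq_of_ne hjl, Finsupp.single_eq_of_ne hj0, add_zero]
  set x0 : JR n k := PowerSeries.coeff 0 (uy n k l) with hx0
  set c : ℕ → JR n k := fun r => ((k + 1).choose r : JR n k) * (-x0) ^ (k + 1 - r) with hc
  have hne : ∀ i < k + 1, b (k + 1) ≠ b i := by
    intro i hi h
    have := congrArg (fun f : Fin (n + 2) →₀ ℕ => f l) h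
    simp only [hbl] at this
    omega
  refine ⟨vf (gs (k + 1 + 1) b c), isFld_vf d _ ?_ ?_, fun v => vf_inr _ v, ?_, ?_⟩
  · refine fun β => gs_dg (k + 1 + 1) b c (5 * k) (fun i hi => ?_) β
    have h1 : Dg 1 (-x0) := dgneg (dg_uy l 0)
    have h2 : ((k + 1).choose i : JR n k) ∈ (wf n k).F 0 := (wf n k).natCast _
    refine dgmono (dgmul (mem_wf.1 h2) (dgpow h1 (k + 1 - i))) ?_
    omega
  · intro s hs R _ _ a y hy
    have h1 : (fun β => pt a y (gs (k + 1 + 1) b c β)) = gs (k + 1 + 1) b fun i => pt a y (c i) := by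
      funext β
      exact map_gs ((pt a y : JR n k →ₐ[ℂ] R) : JR n k →+ R) (k + 1 + 1) b c β
    rw [h1, aeval_gs d (k + 1 + 1) b _ (fun i hi => hbd i (Nat.lt_succ_iff.1 hi)) y]
    have h2 : ∑ i ∈ Finset.range (k + 1 + 1), PowerSeries.C (pt a y (c i)) * mo y (b i) =
        y l ^ q * (y l + PowerSeries.C (-PowerSeries.coeff 0 (y l))) ^ (k + 1) := by
      rw [add_pow, Finset.mul_sum]
      refine Finset.sum_congr rfl fun i hi => ?_
      have h3 : pt a y (c i) = ((k + 1).choose i : R) * (-PowerSeries.coeff 0 (y l)) ^ (k + 1 - i) := by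
        rw [hc]
        simp only [map_mul, map_natCast, map_pow, map_neg]
        rw [hx0, map_uy a y l (Nat.zero_le k)]
      rw [h3, hb, mo_add, mo_single, mo_single, hy, one_pow, mul_one, map_mul, map_natCast, map_pow]
      ring
    rw [h2]
    have h4 : PowerSeries.X ∣ y l + PowerSeries.C (-PowerSeries.coeff 0 (y l)) := by
      rw [PowerSeries.X_dvd_iff, map_add, PowerSeries.constantCoeff_C, PowerSeries.coeff_zero_eq_constantCoeff_apply,
        add_neg_cancel]
    have h5 : PowerSeries.X ^ (k + 1) ∣ y l ^ q * (y l + PowerSeries.C (-PowerSeries.coeff 0 (y l))) ^ (k + 1) :=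
      Dvd.dvd.mul_left (pow_dvd_pow_of_dvd h4 _) _
    exact PowerSeries.X_pow_dvd_iff.1 h5 s (Nat.lt_succ_of_le hs)
  · rw [vf_inl]
    conv_lhs => rw [← hbα]
    rw [gs_last (k + 1) b c hne, hc]
    simp
  · intro β hβ h
    rw [vf_inl] at h
    obtain ⟨i, hi, rfl⟩ := gs_ne _ _ _ _ h
    have hi' : i ≠ k + 1 := fun h' => hβ (by rw [h', hbα])
    refine ⟨?_, hbd i (Nat.lt_succ_iff.1 hi), ?_⟩
    · rw [hbl, hb0]
      omega
    · rw [hbl]
      omega

theorem fld2 (n d k : ℕ) (hk : 1 ≤ k) (hd : k + 1 ≤ d) (l : Fin (n + 2)) (hl : l ≠ 0)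
    (α : Fin (n + 2) →₀ ℕ) (hα : α ∈ (Finset.univ : Finset (Fin (n + 2))).finsuppAntidiag d)
    (ho : α 0 + α l < d) :
    ∃ V : Derivation ℂ (JR n k) (JR n k), IsFld n d k V ∧ (∀ v, V (X (Sum.inr v)) = 0) ∧
      V (X (Sum.inl α)) = PowerSeries.coeff 1 (uy n k l) ^ (2 * k) ∧
      ∀ β, β ≠ α → V (X (Sum.inl β)) ≠ 0 →
        β ∈ (Finset.univ : Finset (Fin (n + 2))).finsuppAntidiag d ∧ α 0 + α l < β 0 + β l := by
  classical
  have hdeg : α.degree = d := mem_ad.1 hα
  -- a variable different from `0` and `l`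
  obtain ⟨j0, hj0, hjl, hj⟩ : ∃ j, j ≠ 0 ∧ j ≠ l ∧ 0 < α j := by
    by_contra hcon
    push Not at hcon
    have h2 : ∑ i, α i = ∑ i ∈ ({0, l} : Finset (Fin (n + 2))), α i := by
      symm
      refine Finset.sum_subset (Finset.subset_univ _) fun j _ hj => ?_
      rw [Finset.mem_insert, Finset.mem_singleton, not_or] at hj
      exact Nat.le_zero.1 (hcon j hj.1 hj.2)
    rw [Finset.sum_pair hl.symm, ← Finsupp.degree_eq_sum, hdeg] at h2
    omega
  -- the part without `X_0`
  set α' : Fin (n + 2) →₀ ℕ := α.erase 0 with hα'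
  have hsplit : α = α' + Finsupp.single 0 (α 0) := by
    exact (Finsupp.erase_add_single 0 α).symm
  have hdeg' : α'.degree + α 0 = d := by
    have := congrArg Finsupp.degree hsplit
    rw [map_add, Finsupp.degree_single, hdeg] at this
    exact this.symm
  have hα'0 : α' 0 = 0 := Finsupp.erase_same
  have hα'j : ∀ j, j ≠ 0 → α' j = α j := fun j hj => Finsupp.erase_ne hj
  -- the first factor
  have hle1 : Finsupp.single j0 1 ≤ α' := by
    rw [Finsupp.single_le_iff, hα'j j0 hj0]
    exact hj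
  obtain ⟨μ, hμ⟩ := le_iff_exists_add.1 hle1
  have hμd : μ.degree + 1 = α'.degree := by
    rw [hμ, map_add, Finsupp.degree_single, add_comm]
  obtain ⟨δ, hδ, hδd⟩ := Finsupp.exists_le_degree_eq μ (min (k - 1) μ.degree) (min_le_right _ _)
  obtain ⟨β0, hβ0⟩ := le_iff_exists_add.1 hδ
  set γ : Fin (n + 2) →₀ ℕ := Finsupp.single j0 1 + δ with hγ
  have hγβ : α' = γ + β0 := by rw [hμ, hβ0, hγ, add_assoc]
  have hγd : γ.degree = 1 + min (k - 1) μ.degree := by
    rw [hγ, map_add, Finsupp.degree_single, hδd]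
  have hγk : γ.degree ≤ k := by
    rw [hγd]
    have := min_le_left (k - 1) μ.degree
    omega
  have hdd : γ.degree + β0.degree = α'.degree := by rw [hγβ]; exact (map_add Finsupp.degree γ β0).symm
  have hβk : β0.degree + k ≤ d := by
    rcases le_total (k - 1) μ.degree with h | h
    · rw [min_eq_left h] at hγd
      omega
    · rw [min_eq_right h] at hγd
      omega
  have hγ0 : γ 0 + β0 0 = 0 := by
    rw [← Finsupp.add_apply, ← hγβ, hα'0]
  have hβ00 : β0 0 = 0 := by omega
  have hγl : γ l + β0 l = α l := by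
    rw [← Finsupp.add_apply, ← hγβ, hα'j l hl]
  have hγj : 1 ≤ γ j0 := by
    rw [hγ, Finsupp.add_apply, Finsupp.single_eq_same]
    omega
  -- `γ` is not a power of `X_l`
  have hγl' : γ l + 1 ≤ γ.degree := by
    have h4 : ∑ i ∈ ({l, j0} : Finset (Fin (n + 2))), γ i ≤ ∑ i, γ i :=
      Finset.sum_le_sum_of_subset (Finset.subset_univ _)
    rw [Finset.sum_pair hjl.symm, ← Finsupp.degree_eq_sum] at h4
    omega
  -- interpolation
  set x : ℕ → JR n k := fun s => PowerSeries.coeff s (uy n k l) with hx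
  have hx1 : x 1 ≠ 0 := by
    rw [hx]
    simp only [uy, PowerSeries.coeff_mk]
    rw [dif_pos (by omega)]
    exact X_ne_zero _
  have hmk : PowerSeries.mk x = uy n k l := by
    ext s : 1
    rw [PowerSeries.coeff_mk]
  obtain ⟨e, he1, he2⟩ := (wf n k).interp (x := x) (fun s => dg_uy l s) hx1 k γ.degree
    (u := fun s => PowerSeries.coeff s (mo (uy n k) γ)) (fun s hs => by
      have h1 : ∀ j ∈ (Finset.univ : Finset (Fin (n + 2))), (wf n k).PS 1 (γ j * 1) (uy n k j ^ γ j) :=
        fun j _ => (wf n k).PS_pow (fun s => by rw [one_mul]; exact dg_uy j s) (γ j)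
      have h2 := (wf n k).PS_prod h1 s
      refine (wf n k).mono (le_of_eq ?_) h2
      rw [Finsupp.degree_eq_sum, one_mul, add_comm]
      simp)
  rw [hmk] at he2
  set b : ℕ → (Fin (n + 2) →₀ ℕ) := fun r =>
    if r = k + 1 then α else β0 + Finsupp.single l r + Finsupp.single 0 (d - (β0.degree + r)) with hb
  set c : ℕ → JR n k := fun r => if r = k + 1 then x 1 ^ (2 * k) else -e r with hc
  have hbl : b (k + 1) = α := by rw [hb]; simp
  have hcl : c (k + 1) = x 1 ^ (2 * k) := by rw [hc]; simp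
  have hbi : ∀ i < k + 1, b i = β0 + Finsupp.single l i + Finsupp.single 0 (d - (β0.degree + i)) := by
    intro i hi
    rw [hb]
    simp only
    rw [if_neg (by omega)]
  have hci : ∀ i < k + 1, c i = -e i := by
    intro i hi
    rw [hc]
    simp only
    rw [if_neg (by omega)]
  have hbd : ∀ i < k + 1 + 1, b i ∈ (Finset.univ : Finset (Fin (n + 2))).finsuppAntidiag d := by
    intro i hi
    rcases Nat.lt_succ_iff_lt_or_eq.1 hi with h | h
    · rw [mem_ad, hbi i h, map_add, map_add, Finsupp.degree_single, Finsupp.degree_single]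
      omega
    · rw [h, hbl]
      exact hα
  have hord : ∀ i < k + 1, α 0 + α l < b i 0 + b i l := by
    intro i hi
    rw [hbi i hi]
    simp only [Finsupp.add_apply, Finsupp.single_eq_same]
    rw [Finsupp.single_eq_of_ne hl.symm, Finsupp.single_eq_of_ne hl, hβ00]
    omega
  have hne : ∀ i < k + 1, b (k + 1) ≠ b i := by
    intro i hi h
    have h1 := hord i hi
    rw [← h, hbl] at h1
    exact lt_irrefl _ h1
  refine ⟨vf (gs (k + 1 + 1) b c), isFld_vf d _ ?_ ?_, fun v => vf_inr _ v, ?_, ?_⟩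
  · refine fun β => gs_dg (k + 1 + 1) b c (5 * k) (fun i hi => ?_) β
    rcases Nat.lt_succ_iff_lt_or_eq.1 hi with h | h
    · rw [hci i h]
      refine dgneg (dgmono (mem_wf.1 (he1 i (Nat.lt_succ_iff.1 h))) ?_)
      omega
    · rw [h, hcl]
      refine dgmono (dgpow (dg_uy l 1) (2 * k)) ?_
      omega
  · intro s hs R _ _ a y hy
    have h1 : (fun β => pt a y (gs (k + 1 + 1) b c β)) = gs (k + 1 + 1) b fun i => pt a y (c i) := by
      funext β
      exact map_gs ((pt a y : JR n k →ₐ[ℂ] R) : JR n k →+ R) (k + 1 + 1) b c β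
    rw [h1, aeval_gs d (k + 1 + 1) b _ hbd y, Finset.sum_range_succ, hbl, hcl]
    have h2 : ∀ i ∈ Finset.range (k + 1), PowerSeries.C (pt a y (c i)) * mo y (b i) =
        -(mo y β0 * (PowerSeries.C (pt a y (e i)) * y l ^ i)) := by
      intro i hi
      have hi' := Finset.mem_range.1 hi
      rw [hbi i hi', hci i hi', mo_add, mo_add, mo_single, mo_single, hy, one_pow, mul_one, map_neg, map_neg]
      ring
    rw [Finset.sum_congr rfl h2, Finset.sum_neg_distrib, ← Finset.mul_sum]
    have h3 : mo y α = mo y β0 * mo y γ := by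
      conv_lhs => rw [hsplit, mo_add, mo_single, hy, one_pow, mul_one, hγβ, mo_add]
      rw [mul_comm]
    rw [h3]
    have h4 : -(mo y β0 * ∑ i ∈ Finset.range (k + 1), PowerSeries.C (pt a y (e i)) * y l ^ i) +
        PowerSeries.C (pt a y (x 1 ^ (2 * k))) * (mo y β0 * mo y γ) =
        mo y β0 * (PowerSeries.C (pt a y (x 1 ^ (2 * k))) * mo y γ -
          ∑ i ∈ Finset.range (k + 1), PowerSeries.C (pt a y (e i)) * y l ^ i) := by ring
    rw [h4]
    have h5 : ∀ s ≤ k, PowerSeries.coeff s (PowerSeries.C (pt a y (x 1 ^ (2 * k))) * mo y γ -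
          ∑ i ∈ Finset.range (k + 1), PowerSeries.C (pt a y (e i)) * y l ^ i) = 0 := by
      intro s hs
      have h6 := congrArg (pt a y) (he2 s hs)
      rw [map_mul, pt_mo a y γ hs, map_sum] at h6
      rw [map_sub, PowerSeries.coeff_C_mul, h6, map_sum, sub_eq_zero]
      refine Finset.sum_congr rfl fun i _ => ?_
      have h7 := pt_mo (k := k) a y (Finsupp.single l i) hs
      rw [mo_single, mo_single] at h7
      rw [map_mul, h7, PowerSeries.coeff_C_mul]
    have h8 := red_eq_zero.2 h5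
    have h9 : red R k (mo y β0 * (PowerSeries.C (pt a y (x 1 ^ (2 * k))) * mo y γ -
          ∑ i ∈ Finset.range (k + 1), PowerSeries.C (pt a y (e i)) * y l ^ i)) = 0 := by
      rw [map_mul, h8, mul_zero]
    exact red_eq_zero.1 h9 s hs
  · rw [vf_inl]
    conv_lhs => rw [← hbl]
    rw [gs_last (k + 1) b c hne, hcl]
  · intro β hβ h
    rw [vf_inl] at h
    obtain ⟨i, hi, rfl⟩ := gs_ne _ _ _ _ h
    have hi' : i ≠ k + 1 := fun h' => hβ (by rw [h', hbl])
    exact ⟨hbd i hi, hord i (by omega)⟩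

end Pool.Agent.H57.UGB
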